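import Pool.Agent.Y920.QB.Lin

/-!
# QB-LINK, QB-CNT, QB-GEN, QB-SUM

Bounded forms over the field with two elements: a consequence of linkage, a dimension count,
generic vectors and sums of two subspaces.
-/

set_option autoImplicit false

namespace Pool.Agent.Y287.QB

open Module Pool.Agent.Y920.QB

theorem add_self_two {M : Type*} [AddCommGroup M] [Module (ZMod 2) M] (a : M) : a + a = 0 := by
  have h : (2 : ZMod 2) • a = a + a := two_smul (ZMod 2) a
  rw [← h]
  have h2 : (2 : ZMod 2) = 0 := rfl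
  rw [h2, zero_smul]

theorem t_LINK : S_LINK := by
  intro V K _ _ _ _ _ _ U β hL κ κ' u v hu h x
  have h1 : β v x ∈ LinearMap.range (β u) := by rw [hu]; exact Submodule.mem_top
  obtain ⟨x1, hx1⟩ := h1
  have h2 : u + (u + v) = v := by rw [← add_assoc, add_self_two, zero_add]
  obtain ⟨z, hz1, hz2⟩ := hL.link u (u + v) (β v x) ⟨x1, hx1⟩ ⟨x, by rw [h2]⟩
  have h3 : β v z = β v x := by
    rw [map_add, LinearMap.add_apply] at hz1
    have h4 : β u z + (β u z + β v z) = β v z := by rw [← add_assoc, add_self_two, zero_add]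
    rw [hz1, add_zero] at h4
    rw [← h4, hz2]
  calc κ (β v x) = κ (β u z) := by rw [hz2]
    _ = κ' (β v z) := h z
    _ = κ' (β v x) := by rw [h3]

section

variable {V K : Type} [AddCommGroup V] [Module (ZMod 2) V] [AddCommGroup K] [Module (ZMod 2) K]
  {U : Submodule (ZMod 2) V}

/-- the map `u ↦ κ ∘ β u` -/
def ff (β : U →ₗ[ZMod 2] V →ₗ[ZMod 2] K) (κ : Module.Dual (ZMod 2) K) :
    U →ₗ[ZMod 2] Module.Dual (ZMod 2) V :=
  (LinearMap.compRight (ZMod 2) κ).comp β

theorem ff_apply (β : U →ₗ[ZMod 2] V →ₗ[ZMod 2] K) (κ : Module.Dual (ZMod 2) K) (u : U) (x : V) :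
    ff β κ u x = κ (β u x) := rfl

theorem ker_ff (β : U →ₗ[ZMod 2] V →ₗ[ZMod 2] K) (κ : Module.Dual (ZMod 2) K) :
    LinearMap.ker (ff β κ) = UE β (LinearMap.ker κ) := by
  ext u
  rw [LinearMap.mem_ker]
  constructor
  · intro h x
    rw [LinearMap.mem_ker, ← ff_apply, h]
    rfl
  · intro h
    ext x
    rw [ff_apply]
    exact LinearMap.mem_ker.1 (h x)

end

theorem t_CNT : S_CNT := by
  intro V K _ _ _ _ _ _ U β hL κ κ'
  have hV : Module.Finite (ZMod 2) V := Module.Finite.of_finite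
  have hU : Module.Finite (ZMod 2) U := inferInstance
  refine ⟨(LinearMap.range (ff β κ')).comap (ff β κ), ?_, ?_⟩
  · intro u
    rw [Submodule.mem_comap, LinearMap.mem_range]
    constructor
    · rintro ⟨v, hv⟩
      refine ⟨v, fun x => ?_⟩
      rw [← ff_apply, ← ff_apply, hv]
    · rintro ⟨v, hv⟩
      refine ⟨v, ?_⟩
      ext x
      rw [ff_apply, ff_apply, hv]
  · have e1 := LinearMap.finrank_range_add_finrank_ker (ff β κ)
    have e2 := LinearMap.finrank_range_add_finrank_ker (ff β κ')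
    have e3 := Submodule.finrank_sup_add_finrank_inf_eq (LinearMap.range (ff β κ))
      (LinearMap.range (ff β κ'))
    have e4 := LinearMap.finrank_range_add_finrank_ker
      ((ff β κ).domRestrict ((LinearMap.range (ff β κ')).comap (ff β κ)))
    rw [LinearMap.range_domRestrict, Submodule.map_comap_eq] at e4
    have e5 : finrank (ZMod 2) (LinearMap.ker (ff β κ)) ≤ finrank (ZMod 2) (LinearMap.ker
        ((ff β κ).domRestrict ((LinearMap.range (ff β κ')).comap (ff β κ)))) := by
      let g : LinearMap.ker (ff β κ) →ₗ[ZMod 2] LinearMap.ker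
          ((ff β κ).domRestrict ((LinearMap.range (ff β κ')).comap (ff β κ))) :=
        { toFun := fun u => ⟨⟨u.1, by
            rw [Submodule.mem_comap, LinearMap.mem_ker.1 u.2]
            exact Submodule.zero_mem _⟩, by
            rw [LinearMap.mem_ker]
            exact LinearMap.mem_ker.1 u.2⟩
          map_add' := fun _ _ => rfl
          map_smul' := fun _ _ => rfl }
      refine LinearMap.finrank_le_finrank_of_injective (f := g) ?_
      intro a b hab
      have h1 : ((g a).1 : U) = (g b).1 := by rw [hab]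
      exact Subtype.ext h1
    have e6 : LinearMap.range (ff β κ) ⊔ LinearMap.range (ff β κ') ≤
        ((UE β (LinearMap.ker κ ⊓ LinearMap.ker κ')).map U.subtype).dualAnnihilator := by
      refine sup_le ?_ ?_
      · rintro _ ⟨u, rfl⟩
        rw [Submodule.mem_dualAnnihilator]
        rintro _ ⟨x, hx, rfl⟩
        change κ (β u (x : V)) = 0
        rw [hL.symm]
        exact LinearMap.mem_ker.1 (hx (u : V)).1
      · rintro _ ⟨u, rfl⟩
        rw [Submodule.mem_dualAnnihilator]
        rintro _ ⟨x, hx, rfl⟩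
        change κ' (β u (x : V)) = 0
        rw [hL.symm]
        exact LinearMap.mem_ker.1 (hx (u : V)).2
    have e7 := Submodule.finrank_mono e6
    have e8 := Subspace.finrank_add_finrank_dualAnnihilator_eq
      ((UE β (LinearMap.ker κ ⊓ LinearMap.ker κ')).map U.subtype)
    rw [Submodule.finrank_map_subtype_eq] at e8
    rw [ker_ff] at e1 e2 e5
    unfold ee
    omega

theorem card_sub {V : Type*} [AddCommGroup V] [Module (ZMod 2) V] [Finite V]
    (W : Submodule (ZMod 2) V) : (W : Set V).ncard = 2 ^ finrank (ZMod 2) W := by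
  have h1 : (W : Set V).ncard = Nat.card W := rfl
  rw [h1, Module.natCard_eq_pow_finrank (K := ZMod 2), Nat.card_eq_fintype_card, ZMod.card]

theorem t_GEN : S_GEN := by
  classical
  intro V K _ _ _ _ _ _ U β T d hA hd Y W hYW hY
  have hV : Module.Finite (ZMod 2) V := Module.Finite.of_finite
  have hK : Module.Finite (ZMod 2) K := Module.Finite.of_finite
  have hD : Finite (Module.Dual (ZMod 2) K) := Module.finite_of_finite (ZMod 2)
  have hDf : Fintype (Module.Dual (ZMod 2) K) := Fintype.ofFinite _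
  by_contra hcon
  have hcon' : finrank (ZMod 2) W + d + 1 < finrank (ZMod 2) U := not_le.1 hcon
  obtain ⟨F, hF⟩ : ∃ F : Finset (Module.Dual (ZMod 2) K), F = Finset.univ.erase 0 := ⟨_, rfl⟩
  have hFm : ∀ m, m ∈ F ↔ m ≠ 0 := by
    intro m
    rw [hF, Finset.mem_erase]
    exact ⟨fun h => h.1, fun h => ⟨h, Finset.mem_univ _⟩⟩
  have hFc : F.card + 1 = 2 ^ finrank (ZMod 2) K := by
    rw [hF, Finset.card_erase_add_one (Finset.mem_univ _), Finset.card_univ,
      ← Nat.card_eq_fintype_card, Module.natCard_eq_pow_finrank (K := ZMod 2),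
      Nat.card_eq_fintype_card, ZMod.card, Subspace.dual_finrank_eq]
  -- the covering
  have hcov : (Y : Set U) ⊆ (W : Set U) ∪ ⋃ m ∈ F, (UE β (LinearMap.ker m) : Set U) := by
    intro u hu
    by_cases h : LinearMap.range (β u) = ⊤
    · exact Or.inl (hYW u hu h)
    · right
      obtain ⟨m, hm, hm2⟩ := Submodule.exists_le_ker_of_lt_top _ (lt_top_iff_ne_top.2 h)
      refine Set.mem_iUnion₂.2 ⟨m, (hFm m).2 hm, ?_⟩
      intro x
      exact hm2 ⟨x, rfl⟩
  have h1 : 2 ^ finrank (ZMod 2) Y ≤ 2 ^ finrank (ZMod 2) W +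
      ∑ m ∈ F, 2 ^ ee β (LinearMap.ker m) := by
    have h2 := Set.ncard_le_ncard hcov (Set.toFinite _)
    have h3 := Set.ncard_union_le (W : Set U) (⋃ m ∈ F, (UE β (LinearMap.ker m) : Set U))
    have h4 := F.set_ncard_biUnion_le (fun m => (UE β (LinearMap.ker m) : Set U))
    have h5 : ∑ m ∈ F, (UE β (LinearMap.ker m) : Set U).ncard =
        ∑ m ∈ F, 2 ^ ee β (LinearMap.ker m) :=
      Finset.sum_congr rfl fun m _ => card_sub _
    rw [card_sub] at h2 h3
    rw [h5] at h4
    exact h2.trans (h3.trans (Nat.add_le_add_left h4 _))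
  have htop : ee β ⊤ = finrank (ZMod 2) U := by
    have h2 : UE β ⊤ = ⊤ := by
      rw [eq_top_iff]
      intro u _ x
      exact Submodule.mem_top
    unfold ee
    rw [h2, finrank_top]
  have h6 : ∀ m ∈ F, ee β (LinearMap.ker m) + T ≤ finrank (ZMod 2) U := by
    intro m hm
    rw [← htop]
    refine hA _ (lt_top_iff_ne_top.2 ?_)
    intro h
    exact (hFm m).1 hm (LinearMap.ker_eq_top.1 h)
  rcases F.eq_empty_or_nonempty with h | ⟨m0, hm0⟩
  · rw [h, Finset.sum_empty, add_zero] at h1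
    have h7 := (Nat.pow_le_pow_iff_right (by norm_num : 1 < 2)).1 h1
    omega
  · have hT := h6 m0 hm0
    obtain ⟨N, hN⟩ : ∃ N, N = finrank (ZMod 2) U := ⟨_, rfl⟩
    rw [← hN] at hT h6 hcon' hY
    obtain ⟨r, hr⟩ : ∃ r, r = finrank (ZMod 2) K := ⟨_, rfl⟩
    rw [← hr] at hFc hd
    obtain ⟨w, hw⟩ : ∃ w, w = finrank (ZMod 2) W := ⟨_, rfl⟩
    rw [← hw] at h1 hcon'
    obtain ⟨y, hy⟩ : ∃ y, y = finrank (ZMod 2) Y := ⟨_, rfl⟩
    rw [← hy] at h1 hY
    have h8 : ∑ m ∈ F, 2 ^ ee β (LinearMap.ker m) ≤ F.card * 2 ^ (N - T) := by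
      rw [← smul_eq_mul, ← Finset.sum_const]
      refine Finset.sum_le_sum fun m hm => ?_
      refine Nat.pow_le_pow_right (by norm_num) ?_
      have := h6 m hm
      omega
    have h9 : F.card * 2 ^ (N - T) + 2 ^ (N - T) = 2 ^ (r + (N - T)) := by
      rw [pow_add, ← hFc, add_mul, one_mul]
    have h10 : 2 ^ (r + (N - T)) ≤ 2 ^ (N - d - 1) :=
      Nat.pow_le_pow_right (by norm_num) (by omega)
    have h11 : 2 ^ w ≤ 2 ^ (N - d - 1) := Nat.pow_le_pow_right (by norm_num) (by omega)
    have h12 : 2 ^ (N - d) ≤ 2 ^ y := Nat.pow_le_pow_right (by norm_num) (by omega)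
    have h13 : 2 ^ (N - d) = 2 ^ (N - d - 1) + 2 ^ (N - d - 1) := by
      have h14 : N - d = (N - d - 1) + 1 := by omega
      rw [h14, pow_succ, Nat.add_sub_cancel]
      ring
    have h15 : 0 < 2 ^ (N - T) := by positivity
    omega

theorem t_SUM : S_SUM := by
  intro hLK hCN hGE V K _ _ _ _ _ _ U β T d hL hA hd κ κ' hc
  obtain ⟨Y, hY1, hY2⟩ := hCN V K U β hL κ κ'
  refine hGE V K U β T d hA hd Y _ ?_ ?_
  · intro u hu hr
    obtain ⟨v, hv⟩ := (hY1 u).1 hu
    have h1 := hLK V K U β hL κ κ' u v hr hv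
    have h2 : v ∈ UE β (LinearMap.ker (κ + κ')) := by
      intro x
      rw [LinearMap.mem_ker, LinearMap.add_apply, ← h1 x, add_self_two]
    have h3 : u - v ∈ UE β (LinearMap.ker κ) := by
      intro x
      rw [LinearMap.mem_ker, map_sub, LinearMap.sub_apply, map_sub, hv x, h1 x, sub_self]
    have h4 : u = (u - v) + v := by abel
    rw [h4]
    exact Submodule.add_mem_sup h3 h2
  · omega

end Pool.Agent.Y287.QB
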